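import Pool.Agent.H378R2.PT.Main
import Pool.Agent.H674R2.PT.T1
import Pool.Agent.H398R2.RK.Surv

set_option autoImplicit false

/-! # Large least primes in Goldbach representations

For an even `m ≥ 4`, `g m` is the least prime `p` such that `m - p` is prime (`⊤` if there is none), and
`G n = max {g m : m even, 4 ≤ m ≤ n}`.  With `F(x) = log x (log₂ x)³ log₄ x / (log₃ x)²` (iterated
logarithms) we prove `G(n) ≥ c F(n)` for all large `n`.  (`core`: moreover every interval `(M, M + X]`,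
`M ≥ X ≥ X₀`, contains an even number `m` such that every prime `p` with `m - p` prime and every prime
`p` with `m + p` prime exceeds `c F(X)`.)

The proof applies the theorem on prime-free translates of `Pool.Agent.H378R2.PT` (covering sieve of
`Pool.Agent.H256R2.SC`) to the set of the primes up to `c F(X)`. -/

namespace Pool.Agent.Results.MP_bae66e_nt.LeastSummand

open Finset
open Pool.Agent.H256R2.SC (ff)
open Pool.Agent.H256R2.SC.LG (ev_log half_log ff_half log10_lt log_sq_le)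

/-- `F(x) = log x (log₂ x)³ log₄ x / (log₃ x)²` (iterated natural logarithms). -/
noncomputable def F (x : ℝ) : ℝ :=
  Real.log x * (Real.log (Real.log x)) ^ 3 * Real.log (Real.log (Real.log (Real.log x))) /
    (Real.log (Real.log (Real.log x))) ^ 2

/-- The least prime `p` such that `m = p + q` with `q` prime; `⊤` if there is none. -/
noncomputable def g (m : ℕ) : ℕ∞ :=
  sInf {a : ℕ∞ | ∃ p q : ℕ, p.Prime ∧ q.Prime ∧ p + q = m ∧ a = (p : ℕ∞)}

/-- `G n`: the maximum of `g m` over the even `m` with `4 ≤ m ≤ n`. -/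
noncomputable def G (n : ℕ) : ℕ∞ :=
  sSup {a : ℕ∞ | ∃ m : ℕ, Even m ∧ 4 ≤ m ∧ m ≤ n ∧ a = g m}

theorem F_eq (x : ℝ) : F x = ff x * Real.log (Real.log x) := by
  unfold F ff
  ring

theorem core : ∃ c : ℝ, 0 < c ∧ ∃ X₀ : ℝ, ∀ X : ℝ, X₀ ≤ X → ∀ M : ℝ, X ≤ M →
    ∃ m : ℕ, Even m ∧ M < m ∧ (m : ℝ) ≤ M + X ∧
      ∀ p q : ℕ, p.Prime → q.Prime → (p + q = m ∨ m + p = q) → c * F X < p := by
  obtain ⟨c, hc, X₁, h⟩ := Pool.Agent.H378R2.PT.main_of 4
    (Pool.Agent.H378R2.PT.rough_count (4 + 1)) 2 (by norm_num)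
  obtain ⟨X₂, h₂⟩ := ev_log (max 100 (10 / c))
  set c' : ℝ := min 1 (c / 20) with hc'
  have hc'0 : 0 < c' := lt_min one_pos (by positivity)
  have hc'1 : c' ≤ 1 := min_le_left _ _
  have hc'2 : c' ≤ c / 20 := min_le_right _ _
  refine ⟨c', hc'0, max X₁ X₂, fun X hX M hM => ?_⟩
  obtain ⟨hX1, m1, m2, m3, m4⟩ := h₂ X ((le_max_right _ _).trans hX)
  have n1 := (le_max_left _ _).trans m1
  have n2 := (le_max_left _ _).trans m2
  have n3 := (le_max_left _ _).trans m3
  have n4 := (le_max_left _ _).trans m4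
  have k2 := (le_max_right _ _).trans m2
  have hFf := F_eq X
  have hFd : F X = Real.log X * (Real.log (Real.log X)) ^ 3 *
    Real.log (Real.log (Real.log (Real.log X))) / (Real.log (Real.log (Real.log X))) ^ 2 := rfl
  have hfd : ff X = Real.log X * (Real.log (Real.log X)) ^ 2 *
    Real.log (Real.log (Real.log (Real.log X))) / (Real.log (Real.log (Real.log X))) ^ 2 := rfl
  set l1 := Real.log X with hl1
  set l2 := Real.log l1 with hl2
  set l3 := Real.log l2 with hl3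
  set l4 := Real.log l3 with hl4
  have p1 : 0 < l1 := by linarith
  have p2 : 0 < l2 := by linarith
  have p3 : 0 < l3 := by linarith
  have p4 : 0 < l4 := by linarith
  have q1 : l3 ^ 2 ≤ 4 * l2 := log_sq_le (by linarith)
  have q3 : l4 ≤ l3 := by
    have := Real.log_le_sub_one_of_pos p3
    linarith
  have hff0 : 0 ≤ ff X := by rw [hfd]; positivity
  have hF0 : 0 ≤ F X := by rw [hFd]; positivity
  -- upper bound for F
  have hFup : F X ≤ l1 * l2 ^ 4 := by
    rw [hFd]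
    have e1 : l4 / l3 ^ 2 ≤ 1 := by
      rw [div_le_one (by positivity)]
      nlinarith
    have e2 : l2 ^ 3 ≤ l2 ^ 4 := pow_le_pow_right₀ (by linarith) (by norm_num)
    calc l1 * l2 ^ 3 * l4 / l3 ^ 2 = l1 * l2 ^ 3 * (l4 / l3 ^ 2) := by ring
      _ ≤ l1 * l2 ^ 3 * 1 := by gcongr
      _ ≤ l1 * l2 ^ 4 := by rw [mul_one]; gcongr
  -- lower bound for F
  have hcl : 1 / 2 ≤ c' * l2 := by
    rw [hc', min_mul_of_nonneg _ _ p2.le]
    apply le_min
    · linarith
    · rw [div_le_iff₀ hc] at k2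
      linarith
  have hFlow : l1 + 1 ≤ c' * F X := by
    rw [hFd]
    have e1 : l1 * l2 ^ 3 * l4 / (4 * l2) ≤ l1 * l2 ^ 3 * l4 / l3 ^ 2 :=
      div_le_div_of_nonneg_left (by positivity) (by positivity) q1
    have e2 : l1 * l2 ^ 3 * l4 / (4 * l2) = l1 * l2 ^ 2 * l4 / 4 := by
      field_simp
    have e3 : 100 * 100 ≤ l2 * l4 := mul_le_mul n2 n4 (by norm_num) p2.le
    have e4 : (1 / 2) * (100 * 100) ≤ (c' * l2) * (l2 * l4) :=
      mul_le_mul hcl e3 (by norm_num) (by positivity)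
    calc l1 + 1 ≤ l1 * ((1 / 2) * (100 * 100)) / 4 := by linarith
      _ ≤ l1 * ((c' * l2) * (l2 * l4)) / 4 := by gcongr
      _ = c' * (l1 * l2 ^ 2 * l4 / 4) := by ring
      _ ≤ c' * (l1 * l2 ^ 3 * l4 / l3 ^ 2) := by rw [← e2]; gcongr
  set L : ℕ := ⌊c' * F X⌋₊ with hL
  have hL1 : (L : ℝ) ≤ c' * F X := Nat.floor_le (by positivity)
  have hL2 : l1 ≤ L := by
    have := Nat.lt_floor_add_one (c' * F X)
    rw [← hL] at this
    linarith
  have hL3 : 2 ≤ L := by
    have : (2 : ℝ) ≤ L := by linarith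
    exact_mod_cast this
  have hlogL : l2 ≤ Real.log L := Real.log_le_log p1 hL2
  have hpi := Pool.Agent.H398R2.RK.primes_le L hL3
  set P : Finset ℕ := (Finset.Icc 1 L).filter Nat.Prime with hP
  set Z : Finset ℤ := P.image (fun p : ℕ => -(p : ℤ)) ∪ P.image (fun p : ℕ => (p : ℤ)) with hZ
  have hLF : (L : ℝ) ≤ F X := hL1.trans (by nlinarith)
  obtain ⟨n, hn1, hn2, hn3, hn4⟩ := h X ((le_max_left _ _).trans hX) M hM 0 Z
    (by
      intro z hz
      have hz' : ∃ p ∈ P, z = -(p : ℤ) ∨ z = (p : ℤ) := by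
        rw [hZ, mem_union, mem_image, mem_image] at hz
        rcases hz with ⟨p, hp, rfl⟩ | ⟨p, hp, rfl⟩
        · exact ⟨p, hp, Or.inl rfl⟩
        · exact ⟨p, hp, Or.inr rfl⟩
      obtain ⟨p, hp, hzp⟩ := hz'
      have hpL : (p : ℝ) ≤ L := by
        have := (mem_Icc.1 (mem_filter.1 hp).1).2
        exact_mod_cast this
      have habs : |(z : ℝ)| = p := by
        rcases hzp with rfl | rfl
        · push_cast
          rw [abs_neg, abs_of_nonneg (Nat.cast_nonneg _)]
        · push_cast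
          rw [abs_of_nonneg (Nat.cast_nonneg _)]
      rw [habs]
      exact hpL.trans (hLF.trans hFup))
    (by
      have e1 : (Z.card : ℝ) ≤ 2 * P.card := by
        have a1 : Z.card ≤ P.card + P.card :=
          (card_union_le _ _).trans (add_le_add card_image_le card_image_le)
        have a2 : (Z.card : ℝ) ≤ P.card + P.card := by exact_mod_cast a1
        linarith
      have e2 : 10 * (L : ℝ) / Real.log L ≤ 10 * (c' * F X) / l2 := by gcongr
      have e3 : 10 * (c' * F X) / l2 = 10 * c' * ff X := by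
        rw [hFf]
        field_simp
      change (Z.card : ℝ) ≤ c * ff X
      have e4 : 20 * c' * ff X ≤ c * ff X := by
        apply mul_le_mul_of_nonneg_right _ hff0
        linarith
      linarith)
  refine ⟨n, ?_, hn1, hn2, ?_⟩
  · rw [Nat.even_iff]
    exact hn3
  · intro p q hp hq hpq
    by_contra hcon
    push Not at hcon
    have hpL : p ≤ L := Nat.le_floor hcon
    have hpP : p ∈ P := mem_filter.2 ⟨mem_Icc.2 ⟨hp.pos, hpL⟩, hp⟩
    rcases hpq with hpq | hpq
    · apply hn4 (-(p : ℤ)) (mem_union_left _ (mem_image_of_mem _ hpP))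
      have : (n : ℤ) + -(p : ℤ) = (q : ℤ) := by omega
      rw [this]
      exact Nat.prime_iff_prime_int.1 hq
    · apply hn4 (p : ℤ) (mem_union_right _ (mem_image_of_mem _ hpP))
      have : (n : ℤ) + (p : ℤ) = (q : ℤ) := by omega
      rw [this]
      exact Nat.prime_iff_prime_int.1 hq

theorem F_half : ∃ X₀ : ℝ, ∀ X : ℝ, X₀ ≤ X → F X / 32 ≤ F (X / 2) ∧ 0 ≤ F X := by
  obtain ⟨X₁, h₁⟩ := ff_half
  obtain ⟨X₂, h₂⟩ := ev_log 100
  refine ⟨max X₁ X₂, fun X hX => ?_⟩
  have h3 := h₁ X ((le_max_left _ _).trans hX)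
  obtain ⟨hX1, m1, m2, m3, m4⟩ := h₂ X ((le_max_right _ _).trans hX)
  have hlog10 := log10_lt
  have y0 : Real.log X / 2 ≤ Real.log (X / 2) :=
    half_log (by linarith) (by linarith) (by linarith)
  have y1 : Real.log (Real.log X) / 2 ≤ Real.log (Real.log (X / 2)) :=
    half_log (by linarith) (by linarith) (by linarith)
  have hff0 : 0 ≤ ff X := by
    unfold ff
    have a1 : 0 ≤ Real.log X := by linarith
    have a2 : 0 ≤ Real.log (Real.log (Real.log (Real.log X))) := by linarith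
    positivity
  rw [F_eq, F_eq]
  constructor
  · calc ff X * Real.log (Real.log X) / 32 = (ff X / 16) * (Real.log (Real.log X) / 2) := by ring
      _ ≤ ff (X / 2) * Real.log (Real.log (X / 2)) :=
        mul_le_mul h3 y1 (by linarith) (by linarith)
  · exact mul_nonneg hff0 (by linarith)

/-- **Large least primes in Goldbach representations.** -/
theorem result : ∃ c : ℝ, 0 < c ∧ ∃ n₀ : ℕ, ∀ n : ℕ, n₀ ≤ n →
    ENNReal.ofReal (c * F n) ≤ ((G n : ℕ∞) : ENNReal) := by
  obtain ⟨c, hc, X₁, h⟩ := core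
  obtain ⟨X₂, h₂⟩ := F_half
  refine ⟨c / 32, by positivity, ⌈max (2 * X₁) (max X₂ 8)⌉₊, fun n hn => ?_⟩
  have hn' : max (2 * X₁) (max X₂ 8) ≤ n := Nat.ceil_le.1 hn
  have hn1 : 2 * X₁ ≤ n := (le_max_left _ _).trans hn'
  have hn2 : X₂ ≤ n := (le_max_left _ _).trans ((le_max_right _ _).trans hn')
  have hn3 : (8 : ℝ) ≤ n := (le_max_right _ _).trans ((le_max_right _ _).trans hn')
  obtain ⟨hF1, hF2⟩ := h₂ n hn2
  obtain ⟨m, hm1, hm2, hm3, hm4⟩ := h ((n : ℝ) / 2) (by linarith) ((n : ℝ) / 2) le_rfl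
  set t : ℝ := c / 32 * F n with ht
  have htF : t ≤ c * F ((n : ℝ) / 2) := by
    have : c * (F n / 32) ≤ c * F ((n : ℝ) / 2) := by gcongr
    linarith
  have hm5 : m ≤ n := by
    have : (m : ℝ) ≤ n := by linarith
    exact_mod_cast this
  have hm6 : 4 ≤ m := by
    have : (4 : ℝ) < m := by linarith
    exact_mod_cast this.le
  have h1 : ((⌈t⌉₊ : ℕ) : ℕ∞) ≤ g m := by
    refine le_sInf ?_
    rintro a ⟨p, q, hp, hq, hpq, rfl⟩
    have h2 := hm4 p q hp hq (Or.inl hpq)
    have h3 : ⌈t⌉₊ ≤ p := Nat.ceil_le.2 (by linarith)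
    exact_mod_cast h3
  have h2 : g m ≤ G n := le_sSup ⟨m, hm1, hm6, hm5, rfl⟩
  calc ENNReal.ofReal t ≤ ENNReal.ofReal ((⌈t⌉₊ : ℕ) : ℝ) :=
        ENNReal.ofReal_le_ofReal (Nat.le_ceil t)
    _ = (((⌈t⌉₊ : ℕ) : ℕ∞) : ENNReal) := by simp
    _ ≤ ((G n : ℕ∞) : ENNReal) := ENat.toENNReal_le.2 (h1.trans h2)

end Pool.Agent.Results.MP_bae66e_nt.LeastSummand
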